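import Mathlib
import Pool.Agent.Helper20.RW.Oper

set_option autoImplicit false

namespace Pool.Agent.Results.MP_7ef12a_lc.TreesAgainstColours

open Pool.Agent.Helper20.RW

/-- `T` is an infinite binary tree (an instance of the Ramsey-type weak König's lemma): it is
closed under initial segments and has a string of every length. -/
def InfTree (T : List Bool → Prop) : Prop :=
  (∀ σ τ : List Bool, τ <+: σ → T σ → T τ) ∧ ∀ n : ℕ, ∃ σ : List Bool, T σ ∧ σ.length = n

/-- The set `G` is infinite and homogeneous for the tree `T`. -/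
def Solves (G : ℕ → Bool) (T : List Bool → Prop) : Prop :=
  {n | G n = true}.Infinite ∧
    ∃ b : Bool, ∀ k : ℕ, ∃ σ : List Bool, T σ ∧ σ.length = k ∧
      ∀ i < k, G i = true → σ.getD i false = b

/-- The join of two sets. -/
def join (H Z : ℕ → Bool) (n : ℕ) : Bool := if n % 2 = 0 then H (n / 2) else Z (n / 2)

/-- The set `A` computes an infinite set homogeneous for the tree `T`. -/
def ComputesSolution (A : ℕ → Bool) (T : List Bool → Prop) : Prop :=
  ∃ G : ℕ → Bool, Solves G T ∧
    TuringReducible (fun n : ℕ => (Part.some (G n).toNat : Part ℕ))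
      (fun n : ℕ => (Part.some (A n).toNat : Part ℕ))

/-- The tree of the initial segments of a sequence. -/
def segTree (t : ℕ → Bool) (σ : List Bool) : Prop := ∀ i < σ.length, σ.getD i false = t i

theorem segTree_inf (t : ℕ → Bool) : InfTree (segTree t) := by
  refine ⟨?_, fun n => ⟨List.ofFn fun i : Fin n => t i, ?_, by simp⟩⟩
  · rintro _ τ ⟨ρ, rfl⟩ h i hi
    have h1 := h i (by rw [List.length_append]; omega)
    rw [← h1]
    simp only [List.getD_eq_getElem?_getD]
    rw [List.getElem?_append_left hi]
  · intro i hi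
    have hi' : i < n := by simpa using hi
    simp [List.getD_eq_getElem?_getD, hi']

theorem segTree_solves {t G : ℕ → Bool} (h : Solves G (segTree t)) {y y' : ℕ}
    (hy : G y = true) (hy' : G y' = true) : t y = t y' := by
  obtain ⟨_, b, hb⟩ := h
  obtain ⟨σ, hσ, hlen, hval⟩ := hb (max y y' + 1)
  have h1 : y < max y y' + 1 := Nat.lt_succ_of_le (le_max_left _ _)
  have h2 : y' < max y y' + 1 := Nat.lt_succ_of_le (le_max_right _ _)
  rw [← hσ y (by omega), ← hσ y' (by omega), hval y h1 hy, hval y' h2 hy']

/-- Every infinite binary tree has a path. -/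
theorem exists_path (T : List Bool → Prop) (hT : InfTree T) :
    ∃ P : ℕ → Bool, ∀ k, T (List.ofFn fun i : Fin k => P i) := by
  let C : ℕ → Set (ℕ → Bool) := fun k => {P | T (List.ofFn fun i : Fin k => P i)}
  have hcl : ∀ k, IsClosed (C k) := by
    intro k
    have h1 : Continuous fun P : ℕ → Bool => fun i : Fin k => P i :=
      continuous_pi fun i => continuous_apply _
    exact (isClosed_discrete {p : Fin k → Bool | T (List.ofFn p)}).preimage h1
  have hne : (⋂ k, C k).Nonempty := by
    apply IsCompact.nonempty_iInter_of_sequence_nonempty_isCompact_isClosed C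
    · intro k P hP
      refine hT.1 _ _ ?_ hP
      rw [List.ofFn_succ']
      rw [List.concat_eq_append]
      exact List.prefix_append _ _
    · intro k
      obtain ⟨σ, hσ, hlen⟩ := hT.2 k
      refine ⟨fun i => σ.getD i false, ?_⟩
      have e : (List.ofFn fun i : Fin k => σ.getD i false) = σ := by
        apply List.ext_getElem
        · simp [hlen]
        · intro i h1 h2
          simp [List.getD_eq_getElem?_getD, h2]
      change T (List.ofFn fun i : Fin k => σ.getD i false)
      rw [e]
      exact hσ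
    · exact (hcl 0).isCompact
    · exact hcl
  obtain ⟨P, hP⟩ := hne
  exact ⟨P, fun k => Set.mem_iInter.1 hP k⟩

/-- With `2 ^ m` colours one can take care of `m` trees. -/
theorem upper (m c : ℕ) (hmc : 2 ^ m ≤ c) (T : Fin m → List Bool → Prop)
    (hT : ∀ j, InfTree (T j)) :
    ∃ f : ℕ → Fin c, ∀ H : ℕ → Bool, {x | H x = true}.Infinite →
      (∃ b, ∀ x, H x = true → f x = b) → ∀ j, ComputesSolution H (T j) := by
  choose P hP using fun j => exists_path (T j) (hT j)
  obtain ⟨e⟩ : Nonempty ((Fin m → Bool) ↪ Fin c) := by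
    apply Function.Embedding.nonempty_of_card_le
    simpa using hmc
  refine ⟨fun x => e fun j => P j x, fun H hinf hb j => ⟨H, ⟨hinf, ?_⟩, .refl _⟩⟩
  obtain ⟨b, hb⟩ := hb
  obtain ⟨x₀, hx₀⟩ := hinf.nonempty
  refine ⟨P j x₀, fun k => ⟨List.ofFn fun i : Fin k => P j i, hP j k, by simp, ?_⟩⟩
  intro i hi hHi
  have h1 : (fun j => P j i) = fun j => P j x₀ :=
    e.injective ((hb i hHi).trans (hb x₀ hx₀).symm)
  have h2 : P j i = P j x₀ := congrFun h1 j
  rw [← h2]
  simp [List.getD_eq_getElem?_getD, hi]

/-- The coordinates solved through a computation are solved through an operator. -/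
theorem solved_subset (Z : ℕ → Bool) (w : ℕ → ℕ → Bool) (H : Set ℕ) :
    {j | ComputesSolution (join (ind H) Z) (segTree fun x => w x j)} ⊆
      Solved (Out Z) w H := by
  rintro j ⟨G, hG, hred⟩
  obtain ⟨o, ho⟩ := exists_out G (ind H) Z hred
  have hH : {x | ind H x = true} = H := by
    ext x
    exact ind_eq_true H x
  rw [hH] at ho
  refine ⟨o, fun hf => ?_⟩
  have h1 : (Out Z o H).Infinite := by
    rw [ho]
    exact hG.1
  obtain ⟨y, hy, y', hy', hne⟩ := hf h1
  change y ∈ Out Z o H at hy
  change y' ∈ Out Z o H at hy'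
  rw [ho] at hy hy'
  exact hne (segTree_solves hG hy hy')

/-- **Trees against colours.**
(1) For every set `Z` there are infinite binary trees `T 0, T 1, …` such that for every `c` and
every `f : ℕ → Fin c` there are a set `I` of colours and, for `i` in `I`, an infinite set `H i`
on which `f` is constant with value `i` and whose join with `Z` computes solutions of only
finitely many of the trees, say of `s i` of them, with `1 ≤ ∑ i ∈ I, 2 ^ (- s i)`; in particular
`2 ^ (s i) ≤ c` for some `i` in `I`.
(2) For any `m` infinite binary trees and any `c ≥ 2 ^ m` there is `f : ℕ → Fin c` all of whose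
infinite homogeneous sets compute solutions of all the `m` trees. -/
theorem result :
    (∀ Z : ℕ → Bool, ∃ T : ℕ → List Bool → Prop, (∀ j, InfTree (T j)) ∧
      ∀ (c : ℕ) (f : ℕ → Fin c), ∃ (I : Finset (Fin c)) (H : Fin c → ℕ → Bool),
        (∀ i ∈ I, {x | H i x = true}.Infinite ∧ (∀ x, H i x = true → f x = i) ∧
          {j | ComputesSolution (join (H i) Z) (T j)}.Finite) ∧
        1 ≤ ∑ i ∈ I, (1 / 2 : ℚ) ^ {j | ComputesSolution (join (H i) Z) (T j)}.ncard ∧
        ∃ i ∈ I, 2 ^ {j | ComputesSolution (join (H i) Z) (T j)}.ncard ≤ c) ∧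
    (∀ m c : ℕ, 2 ^ m ≤ c → ∀ T : Fin m → List Bool → Prop, (∀ j, InfTree (T j)) →
      ∃ f : ℕ → Fin c, ∀ H : ℕ → Bool, {x | H x = true}.Infinite →
        (∃ b, ∀ x, H x = true → f x = b) → ∀ j, ComputesSolution H (T j)) := by
  refine ⟨fun Z => ?_, upper⟩
  obtain ⟨w, hw⟩ := exists_weak (Out Z) (out_cont Z)
  refine ⟨fun j => segTree fun x => w x j, fun j => segTree_inf _, fun c f => ?_⟩
  obtain ⟨I, H, hH, hsum⟩ := hw c f
  have hH' : ∀ i ∈ I, {x | ind (H i) x = true}.Infinite ∧
      (∀ x, ind (H i) x = true → f x = i) ∧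
      {j | ComputesSolution (join (ind (H i)) Z) (segTree fun x => w x j)}.Finite := by
    intro i hi
    obtain ⟨h1, h2, h3⟩ := hH i hi
    refine ⟨?_, fun x hx => h2 x ((ind_eq_true _ _).1 hx), h3.subset (solved_subset Z w (H i))⟩
    have e : {x | ind (H i) x = true} = H i := by
      ext x
      exact ind_eq_true _ x
    rw [e]
    exact h1
  have hle : ∑ i ∈ I, (1 / 2 : ℚ) ^ (Solved (Out Z) w (H i)).ncard ≤
      ∑ i ∈ I, (1 / 2 : ℚ) ^
        {j | ComputesSolution (join (ind (H i)) Z) (segTree fun x => w x j)}.ncard := by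
    apply Finset.sum_le_sum
    intro i hi
    exact pow_le_pow_of_le_one (by norm_num) (by norm_num)
      (Set.ncard_le_ncard (solved_subset Z w (H i)) (hH i hi).2.2)
  refine ⟨I, fun i => ind (H i), hH', hsum.trans hle, ?_⟩
  by_contra hcon
  have hc : 0 < c := (f 0).pos
  have hcQ : (0 : ℚ) < c := by exact_mod_cast hc
  have hI : I.Nonempty := by
    rw [Finset.nonempty_iff_ne_empty]
    rintro rfl
    simp only [Finset.sum_empty] at hsum
    norm_num at hsum
  have h4 : ∀ i ∈ I, (1 / 2 : ℚ) ^
      {j | ComputesSolution (join (ind (H i)) Z) (segTree fun x => w x j)}.ncard < 1 / c := by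
    intro i hi
    have h5 : c < 2 ^
        {j | ComputesSolution (join (ind (H i)) Z) (segTree fun x => w x j)}.ncard := by
      by_contra h6
      exact hcon ⟨i, hi, not_lt.1 h6⟩
    have h7 : (c : ℚ) < 2 ^
        {j | ComputesSolution (join (ind (H i)) Z) (segTree fun x => w x j)}.ncard := by
      exact_mod_cast h5
    rw [div_pow, one_pow]
    exact one_div_lt_one_div_of_lt hcQ h7
  have h8 := Finset.sum_lt_sum_of_nonempty hI h4
  rw [Finset.sum_const, nsmul_eq_mul] at h8
  have h9 : (I.card : ℚ) ≤ c := by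
    have h10 := Finset.card_le_univ I
    rw [Fintype.card_fin] at h10
    exact_mod_cast h10
  have h11 : (I.card : ℚ) * (1 / c) ≤ 1 := by
    rw [mul_one_div, div_le_one hcQ]
    exact h9
  have h12 := hsum.trans hle
  linarith

end Pool.Agent.Results.MP_7ef12a_lc.TreesAgainstColours
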