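import Mathlib
import Pool.Agent.Helper20.RU.Core

set_option autoImplicit false

namespace Pool.Agent.Results.MP_7ef12a_lc.UniformComputableTrees

open Pool.Agent.Helper20.RU

/-- `T` is an infinite binary tree (an instance of the Ramsey-type weak König's lemma): it is
closed under initial segments and has a string of every length. -/
def InfTree (T : List Bool → Prop) : Prop :=
  (∀ σ τ : List Bool, τ <+: σ → T σ → T τ) ∧ ∀ n : ℕ, ∃ σ : List Bool, T σ ∧ σ.length = n

/-- The set `G` is infinite and homogeneous for the tree `T`. -/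
def Solves (G : ℕ → Bool) (T : List Bool → Prop) : Prop :=
  {n | G n = true}.Infinite ∧
    ∃ b : Bool, ∀ k : ℕ, ∃ σ : List Bool, T σ ∧ σ.length = k ∧
      ∀ i < k, G i = true → σ.getD i false = b

/-- The partial computable functional `F`, which reads finite initial segments of its oracle,
computes the set `G` from the set `H`. -/
def Gives (F : List ℕ → ℕ →. ℕ) (H G : ℕ → Bool) : Prop :=
  ∀ y v : ℕ, (∃ k : ℕ, v ∈ F ((List.range k).map fun x => (H x).toNat) y) ↔ v = (G y).toNat

/-- One functional computes a solution of the tree `T` from every infinite homogeneous set of the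
colouring `f`. -/
def UniformlySolves {c : ℕ} (f : ℕ → Fin c) (T : List Bool → Prop) : Prop :=
  ∃ F : List ℕ → ℕ →. ℕ, Partrec₂ F ∧
    ∀ H : ℕ → Bool, {x | H x = true}.Infinite → (∃ b, ∀ x, H x = true → f x = b) →
      ∃ G : ℕ → Bool, Gives F H G ∧ Solves G T

/-- Every infinite binary tree has a path. -/
theorem exists_path (T : List Bool → Prop) (hT : InfTree T) :
    ∃ P : ℕ → Bool, ∀ k, T (List.ofFn fun i : Fin k => P i) := by
  let C : ℕ → Set (ℕ → Bool) := fun k => {P | T (List.ofFn fun i : Fin k => P i)}
  have hcl : ∀ k, IsClosed (C k) := by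
    intro k
    have h1 : Continuous fun P : ℕ → Bool => fun i : Fin k => P i :=
      continuous_pi fun i => continuous_apply _
    exact (isClosed_discrete {p : Fin k → Bool | T (List.ofFn p)}).preimage h1
  have hne : (⋂ k, C k).Nonempty := by
    apply IsCompact.nonempty_iInter_of_sequence_nonempty_isCompact_isClosed C
    · intro k P hP
      refine hT.1 _ _ ?_ hP
      rw [List.ofFn_succ']
      rw [List.concat_eq_append]
      exact List.prefix_append _ _
    · intro k
      obtain ⟨σ, hσ, hlen⟩ := hT.2 k
      refine ⟨fun i => σ.getD i false, ?_⟩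
      have e : (List.ofFn fun i : Fin k => σ.getD i false) = σ := by
        apply List.ext_getElem
        · simp [hlen]
        · intro i h1 h2
          simp [List.getD_eq_getElem?_getD, h2]
      change T (List.ofFn fun i : Fin k => σ.getD i false)
      rw [e]
      exact hσ
    · exact (hcl 0).isCompact
    · exact hcl
  obtain ⟨P, hP⟩ := hne
  exact ⟨P, fun k => Set.mem_iInter.1 hP k⟩

/-- The identity functional. -/
theorem gives_id (H : ℕ → Bool) : Gives (fun σ y => (σ[y]? : Part ℕ)) H H := by
  intro y v
  constructor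
  · rintro ⟨k, hk⟩
    rw [Part.mem_ofOption, Option.mem_def, List.getElem?_map] at hk
    by_cases hy : y < k
    · rw [List.getElem?_range hy] at hk
      exact (Option.some.inj hk).symm
    · rw [List.getElem?_eq_none (by simpa using hy)] at hk
      exact absurd hk (by simp)
  · rintro rfl
    refine ⟨y + 1, ?_⟩
    rw [Part.mem_ofOption, Option.mem_def, List.getElem?_map,
      List.getElem?_range (Nat.lt_succ_self y)]
    rfl

/-- With `2 ^ m` colours one can take care of `m` trees, with the identity functional. -/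
theorem upper (m c : ℕ) (hmc : 2 ^ m ≤ c) (T : Fin m → List Bool → Prop)
    (hT : ∀ j, InfTree (T j)) :
    ∃ f : ℕ → Fin c, ∀ j, UniformlySolves f (T j) := by
  choose P hP using fun j => exists_path (T j) (hT j)
  obtain ⟨e⟩ : Nonempty ((Fin m → Bool) ↪ Fin c) := by
    apply Function.Embedding.nonempty_of_card_le
    simpa using hmc
  refine ⟨fun x => e fun j => P j x, fun j => ⟨fun σ y => (σ[y]? : Part ℕ),
    Computable.ofOption Computable.list_getElem?, fun H hinf hb => ⟨H, gives_id H, hinf, ?_⟩⟩⟩
  obtain ⟨b, hb⟩ := hb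
  obtain ⟨x₀, hx₀⟩ := hinf.nonempty
  refine ⟨P j x₀, fun k => ⟨List.ofFn fun i : Fin k => P j i, hP j k, by simp, ?_⟩⟩
  intro i hi hHi
  have h1 : (fun j => P j i) = fun j => P j x₀ :=
    e.injective ((hb i hHi).trans (hb x₀ hx₀).symm)
  have h2 : P j i = P j x₀ := congrFun h1 j
  rw [← h2]
  simp [List.getD_eq_getElem?_getD, hi]

/-- A functional which gives `G` from `H`, and the places found by its code. -/
theorem out_eq {F : List ℕ → ℕ →. ℕ} {o : Nat.Partrec.Code}
    (ho : o.eval = fun n => Part.bind ((Encodable.decode (α := List ℕ × ℕ) n : Option _) : Part _)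
      fun a => Part.map Encodable.encode ((fun p : List ℕ × ℕ => F p.1 p.2) a))
    {H : Set ℕ} {G : ℕ → Bool} (h : Gives F (ind H) G) : Out o H = {y | G y = true} := by
  have hev : ∀ (σ : List ℕ) (y : ℕ), 1 ∈ o.eval (Encodable.encode (σ, y)) ↔ 1 ∈ F σ y := by
    intro σ y
    rw [ho]
    simp
  ext y
  change (∃ k, 1 ∈ o.eval (Encodable.encode ((List.range k).map fun x => (ind H x).toNat, y)))
    ↔ G y = true
  simp only [hev]
  rw [h y 1]
  cases G y <;> simp

/-- Fewer than `2 ^ #J` colours do not take care of the trees in `J`. -/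
theorem lower {c : ℕ} (f : ℕ → Fin c) (J : Finset ℕ)
    (hJ : ∀ j ∈ J, UniformlySolves f (tree j)) : 2 ^ J.card ≤ c := by
  classical
  by_contra hcon
  have hF : ∀ j, ∃ F : List ℕ → ℕ →. ℕ, Partrec₂ F ∧ (j ∈ J →
      ∀ H : ℕ → Bool, {x | H x = true}.Infinite → (∃ b, ∀ x, H x = true → f x = b) →
      ∃ G : ℕ → Bool, Gives F H G ∧ Solves G (tree j)) := by
    intro j
    by_cases h : j ∈ J
    · obtain ⟨F, hF, hF'⟩ := hJ j h
      exact ⟨F, hF, fun _ => hF'⟩
    · exact ⟨fun σ y => (σ[y]? : Part ℕ), Computable.ofOption Computable.list_getElem?,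
        fun h' => absurd h' h⟩
  choose F hFp hFs using hF
  choose o ho using fun j => Nat.Partrec.Code.exists_code.1 (hFp j)
  obtain ⟨j, hj, H, hinf, ⟨i, hi⟩, hbad⟩ := core c f J (not_le.1 hcon) o
  have hHe : {x | ind H x = true} = H := by
    ext x
    exact ind_eq_true H x
  obtain ⟨G, hG, hGinf, b, hb⟩ := hFs j hj (ind H) (by rw [hHe]; exact hinf)
    ⟨i, fun x hx => hi x ((ind_eq_true H x).1 hx)⟩
  have hout := out_eq (ho j) hG
  obtain ⟨y, hy, y', hy', n, hn⟩ := hbad (by rw [hout]; exact hGinf)
  rw [hout] at hy hy'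
  obtain ⟨σ, hσ, hlen, hval⟩ := hb n
  obtain ⟨h1, h2, h3⟩ := hn σ hσ hlen
  exact h3 ((hval y h1 hy).trans (hval y' h2 hy').symm)

/-- **The uniform version with computable trees.**
(1) There is a computable sequence `T 0, T 1, …` of infinite binary trees such that for every `c`
and every `f : ℕ → Fin c` the set of the `j` for which one functional computes a solution of
`T j` from every infinite homogeneous set of `f` is finite, and `2` to the power of its size is
at most `c`.
(2) For any `m` infinite binary trees and any `c ≥ 2 ^ m` there is `f : ℕ → Fin c` such that for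
each of the trees one functional computes a solution from every infinite homogeneous set of
`f`. -/
theorem result :
    (∃ T : ℕ → List Bool → Prop, (ComputablePred fun p : ℕ × List Bool => T p.1 p.2) ∧
      (∀ j, InfTree (T j)) ∧
      ∀ (c : ℕ) (f : ℕ → Fin c), {j | UniformlySolves f (T j)}.Finite ∧
        2 ^ {j | UniformlySolves f (T j)}.ncard ≤ c) ∧
    (∀ m c : ℕ, 2 ^ m ≤ c → ∀ T : Fin m → List Bool → Prop, (∀ j, InfTree (T j)) →
      ∃ f : ℕ → Fin c, ∀ j, UniformlySolves f (T j)) := by
  classical
  refine ⟨⟨tree, ?_, fun j => ⟨tree_prefix j, tree_length j⟩, fun c f => ?_⟩, upper⟩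
  · obtain ⟨h1, h2⟩ := primrec_tree
    exact ⟨h1, h2.to_comp⟩
  · have hfin : {j | UniformlySolves f (tree j)}.Finite := by
      by_contra hinf
      obtain ⟨J, hJ, hJc⟩ := Set.Infinite.exists_subset_card_eq hinf c
      have h1 := lower f J fun j hj => hJ hj
      rw [hJc] at h1
      exact absurd h1 (not_le.2 Nat.lt_two_pow_self)
    refine ⟨hfin, ?_⟩
    rw [Set.ncard_eq_toFinset_card _ hfin]
    exact lower f _ fun j hj => (hfin.mem_toFinset).1 hj

end Pool.Agent.Results.MP_7ef12a_lc.UniformComputableTrees
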